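import Mathlib

set_option autoImplicit false

/-!
# 1-cocycles with values in permutation modules
-/

namespace Pool.Agent.H47.WT

variable {H : Type} [Group H]

/-- `f` is a 1-cocycle of `H` with values in the permutation module `ℤ[X]`. -/
def Coc {X : Type} [MulAction H X] (f : H → X →₀ ℤ) : Prop :=
  ∀ g h : H, f (g * h) = f g + (f h).mapDomain (fun x => g • x)

/-- `f` is a principal 1-cocycle. -/
def Pri {X : Type} [MulAction H X] (f : H → X →₀ ℤ) : Prop :=
  ∃ x : X →₀ ℤ, ∀ g : H, f g = x.mapDomain (fun y => g • y) - x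

/-- All 1-cocycles of `H` with values in `ℤ[X]` are principal. -/
def Van (H : Type) [Group H] (X : Type) [MulAction H X] : Prop :=
  ∀ f : H → X →₀ ℤ, Coc f → Pri f

/-- All 2-cocycles of `H` with values in `ℤ[H]` are coboundaries. -/
def Van2 (H : Type) [Group H] : Prop :=
  ∀ u : H → H → (H →₀ ℤ),
    (∀ a b c : H, (u b c).mapDomain (fun x => a * x) + u a (b * c) = u (a * b) c + u a b) →
    ∃ w : H → (H →₀ ℤ), ∀ a b : H,
      u a b = (w b).mapDomain (fun x => a * x) - w (a * b) + w a

end Pool.Agent.H47.WT
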