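import Mathlib

set_option autoImplicit false

/-!
# Locally small groups
-/

namespace Pool.Agent.H47.WT

/-- `G` has no subgroup isomorphic to `ℤ × ℤ`. -/
def Atoroidal (G : Type) [Group G] : Prop :=
  ¬ ∃ f : Multiplicative (ℤ × ℤ) →* G, Function.Injective f

/-- Every finitely generated torsion-free subgroup `K` of `G` which has no subgroup isomorphic to
`ℤ × ℤ` is virtually free. -/
def LocallySmall (G : Type) [Group G] : Prop :=
  ∀ K : Subgroup G, K.FG → (∀ g ∈ K, IsOfFinOrder g → g = 1) → Atoroidal K →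
    ∃ F : Subgroup G, F ≤ K ∧ F.relIndex K ≠ 0 ∧ IsFreeGroup F

end Pool.Agent.H47.WT
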