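import Mathlib
import Pool.Graph.R_pool_sql_team_seeded_3997aac3.Q182.Cc.Sys

set_option autoImplicit false

/-!
# Invariant sets which are commensurate to the sets of a system give finite orbits
-/

namespace Pool.Agent.H47.WT

open Q182.Cc

variable {G : Type} [Group G] {V Y : Type} [MulAction G V] [MulAction G Y] {A : V → Set Y}

/-- A set commensurate to the `A v` and invariant under `G` gives a finite orbit (the argument of
`Q182.Cc.Sys.power_of_inv` for a group instead of one element). -/
theorem sys_finite_orbit (hA : Sys G A) {v : V} {A' : Set Y}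
    (hinv : ∀ (g : G) (y : Y), y ∈ A' ↔ g • y ∈ A') (hfin : (DF (A v) A').Finite) :
    ∃ u : V, (MulAction.orbit G u).Finite := by
  classical
  have hfin' : ∀ u, (DF (A u) A').Finite := fun u =>
    ((hA.fin u v).union hfin).subset (DF_tri _ _ _)
  -- minimizers
  have hex : ∃ n, ∃ u : V, (DF (A u) A').ncard = n := ⟨_, v, rfl⟩
  obtain ⟨u₀, hu₀⟩ := Nat.find_spec hex
  have hmin : ∀ u, (DF (A u₀) A').ncard ≤ (DF (A u) A').ncard := by
    intro u
    rw [hu₀]
    exact Nat.find_min' hex ⟨u, rfl⟩
  set S : Set V := {u | (DF (A u) A').ncard = (DF (A u₀) A').ncard} with hS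
  -- the set of minimizers is invariant
  have hgS : ∀ (g : G), ∀ u ∈ S, g • u ∈ S := by
    intro g u hu
    rw [hS, Set.mem_ofPred_eq] at hu ⊢
    rw [← hu]
    have h1 : DF (A (g • u)) A' = (fun y => g • y) '' (DF (A u) A') := by
      ext y
      constructor
      · intro hy
        refine ⟨g⁻¹ • y, ?_, smul_inv_smul g y⟩
        rw [mem_DF, hA.eqv g, hinv g (g⁻¹ • y), smul_inv_smul]
        exact hy
      · rintro ⟨z, hz, rfl⟩
        rw [mem_DF] at hz ⊢
        change ¬ (g • z ∈ A (g • u) ↔ g • z ∈ A')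
        rwa [← hA.eqv, ← hinv]
    rw [h1]
    exact Set.ncard_image_of_injective _ (MulAction.injective g)
  -- it is finite
  have hSfin : S.Finite := by
    set F : Set Y := DF (A u₀) A' with hF
    have hFf : F.Finite := hfin' u₀
    refine Set.Finite.of_finite_image (f := fun u => A u ∩ F)
      (hFf.powerset.subset (by
        rintro _ ⟨u, _, rfl⟩
        exact Set.inter_subset_right)) ?_
    intro u hu w hw huw
    have huw' : ∀ y ∈ F, (y ∈ A u ↔ y ∈ A w) := by
      intro y hy
      have h1 : y ∈ A u ∩ F ↔ y ∈ A w ∩ F := by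
        have h2 : A u ∩ F = A w ∩ F := huw
        rw [h2]
      constructor
      · intro h
        exact (h1.1 ⟨h, hy⟩).1
      · intro h
        exact (h1.2 ⟨h, hy⟩).1
    have key : ∀ u w : V, u ∈ S → (∀ y ∈ F, (y ∈ A u ↔ y ∈ A w)) → ∀ m : V,
        (∀ y : Y, y ∈ A m ↔ (y ∈ A u ∧ y ∈ A w) ∨ (y ∈ A w ∧ y ∈ A u₀) ∨ (y ∈ A u ∧ y ∈ A u₀)) →
        m = u := by
      intro u w hu h m hm
      have h1 : DF (A m) A' ⊆ DF (A u) A' := by
        intro y hy
        rw [mem_DF] at hy ⊢
        rw [hm] at hy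
        by_cases hyF : y ∈ F
        · have h2 := h y hyF
          tauto
        · have h2 : y ∈ A u₀ ↔ y ∈ A' := not_not.1 hyF
          tauto
      have h2 : DF (A m) A' = DF (A u) A' := by
        apply Set.eq_of_subset_of_ncard_le h1 _ (hfin' u)
        have h3 : (DF (A u) A').ncard = (DF (A u₀) A').ncard := hu
        rw [h3]
        exact hmin m
      apply hA.inj
      ext y
      have h3 : y ∈ DF (A m) A' ↔ y ∈ DF (A u) A' := by rw [h2]
      rw [mem_DF, mem_DF] at h3
      tauto
    obtain ⟨m, hm⟩ := hA.maj u w u₀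
    have e1 := key u w hu huw' m hm
    have e2 := key w u hw (fun y hy => (huw' y hy).symm) m (by
      intro y
      rw [hm]
      tauto)
    rw [← e1, e2]
  have hu₀S : u₀ ∈ S := rfl
  refine ⟨u₀, hSfin.subset ?_⟩
  rintro _ ⟨g, rfl⟩
  exact hgS g u₀ hu₀S

end Pool.Agent.H47.WT
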