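import Mathlib
import Pool.Agent.H47.WT.Defs

set_option autoImplicit false

namespace Pool.Agent.H47.WT

open groupCohomology

variable {H : Type} [Group H]

private noncomputable abbrev RH (H : Type) [Group H] : Rep ℤ H := Rep.ofMulAction ℤ H H

private theorem coeff_rho (g : H) (x : MonoidAlgebra ℤ H) :
    ((RH H).ρ g x : MonoidAlgebra ℤ H).coeff = x.coeff.mapDomain (fun y => g * y) := rfl

theorem van_of_subsingleton (h1 : Subsingleton (groupCohomology (Rep.ofMulAction ℤ H H) 1)) :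
    Van H H := by
  intro f hf
  let F : H → RH H := fun g => (MonoidAlgebra.coeffEquiv.symm (f g) : MonoidAlgebra ℤ H)
  have hF : F ∈ cocycles₁ (RH H) := by
    rw [mem_cocycles₁_iff]
    intro g h
    apply MonoidAlgebra.coeffEquiv.injective
    show f (g * h) = ((RH H).ρ g (F h) + F g : MonoidAlgebra ℤ H).coeff
    rw [MonoidAlgebra.coeff_add, coeff_rho, hf g h, add_comm]
    rfl
  have h0 : (H1π (RH H)) ⟨F, hF⟩ = 0 := Subsingleton.elim _ _
  rw [H1π_eq_zero_iff] at h0
  obtain ⟨x, hx⟩ := h0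
  refine ⟨(x : MonoidAlgebra ℤ H).coeff, fun g => ?_⟩
  have h2 := congrFun hx g
  have h3 : ((RH H).ρ g x - x : MonoidAlgebra ℤ H) = F g := h2
  have h4 := congrArg MonoidAlgebra.coeff h3
  rw [MonoidAlgebra.coeff_sub, coeff_rho] at h4
  exact h4.symm

theorem van2_of_subsingleton (h2 : Subsingleton (groupCohomology (Rep.ofMulAction ℤ H H) 2)) :
    Van2 H := by
  intro u hu
  let F : H × H → RH H := fun g => (MonoidAlgebra.coeffEquiv.symm (u g.1 g.2) : MonoidAlgebra ℤ H)
  have hF : F ∈ cocycles₂ (RH H) := by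
    rw [mem_cocycles₂_iff]
    intro a b c
    apply MonoidAlgebra.coeffEquiv.injective
    show (F (a * b, c) + F (a, b) : MonoidAlgebra ℤ H).coeff =
      ((RH H).ρ a (F (b, c)) + F (a, b * c) : MonoidAlgebra ℤ H).coeff
    rw [MonoidAlgebra.coeff_add, MonoidAlgebra.coeff_add, coeff_rho]
    exact (hu a b c).symm
  have h0 : (H2π (RH H)) ⟨F, hF⟩ = 0 := Subsingleton.elim _ _
  rw [H2π_eq_zero_iff] at h0
  obtain ⟨x, hx⟩ := h0
  refine ⟨fun a => (x a : MonoidAlgebra ℤ H).coeff, fun a b => ?_⟩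
  have h2 := congrFun hx (a, b)
  have h3 : ((RH H).ρ a (x b) - x (a * b) + x a : MonoidAlgebra ℤ H) = F (a, b) := h2
  have h4 := congrArg MonoidAlgebra.coeff h3
  rw [MonoidAlgebra.coeff_add, MonoidAlgebra.coeff_sub, coeff_rho] at h4
  exact h4.symm

end Pool.Agent.H47.WT
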