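import Mathlib
import Pool.Agent.H47.WT.P1
import Pool.Agent.H91.WT.P2
import Pool.Agent.H50.WT.P3
import Pool.Agent.H42.WT.P4
import Pool.Agent.H85.WT.P5
import Pool.Agent.H80.WT.P6
import Pool.Agent.H87.WT.N1
import Pool.Agent.H32.WT.N2
import Pool.Agent.H4.WT.N3
import Pool.Agent.H19.WT.N5
import Pool.Agent.H32.WT.N6
import Pool.Agent.H47.WT.N4
import Pool.Graph.R_pool_sql_team_seeded_2aa45f1a.Q138.PD.Tors
import Pool.Graph.R_seed8.H986PD.FGP

set_option autoImplicit false

namespace Pool.Agent.H47.WT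

variable {H : Type} [Group H]

/-- `G` is of type `FP` over `ℤ`. -/
def IsFP (G : Type) [Group G] : Prop :=
  ∃ (n : ℕ) (P : ℕ → ModuleCat.{0} (MonoidAlgebra ℤ G))
      (d : ∀ i : ℕ, (P (i+1)) →ₗ[MonoidAlgebra ℤ G] (P i)) (ε : (P 0) →+ ℤ),
      (∀ i, Module.Projective (MonoidAlgebra ℤ G) (P i)) ∧
      (∀ i, Module.Finite (MonoidAlgebra ℤ G) (P i)) ∧
      (∀ i, n < i → Subsingleton (P i)) ∧
      (∀ (g : G) (x : P 0), ε (MonoidAlgebra.of ℤ G g • x) = ε x) ∧
      Function.Surjective ε ∧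
      (∀ x : P 0, ε x = 0 ↔ x ∈ LinearMap.range (d 0)) ∧
      (∀ i, LinearMap.ker (d i) = LinearMap.range (d (i+1)))

/-- `H^1(G; ℤG) = 0` and `H^2(G; ℤG) = 0`. -/
def H12 (G : Type) [Group G] : Prop :=
  Subsingleton (groupCohomology (Rep.ofMulAction ℤ G G) 1) ∧
  Subsingleton (groupCohomology (Rep.ofMulAction ℤ G G) 2)

theorem finite_of_fg_freeGroup (X : Type) (h : Group.FG (FreeGroup X)) : Finite X := by
  classical
  obtain ⟨S, hS⟩ := h.out
  -- letters which occur
  let L : Finset X := S.biUnion fun s => (s.toWord.map Prod.fst).toFinset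
  have key : ∀ x : X, x ∈ L := by
    intro x
    by_contra hx
    let φ : FreeGroup X →* Multiplicative ℤ :=
      FreeGroup.lift (fun y => if y = x then Multiplicative.ofAdd 1 else 1)
    have h1 : φ = 1 := by
      apply MonoidHom.eq_of_eqOn_dense hS
      intro s hs
      have hs' : ∀ p ∈ s.toWord, p.1 ≠ x := by
        intro p hp hpx
        apply hx
        rw [Finset.mem_biUnion]
        exact ⟨s, hs, by simp only [List.mem_toFinset, List.mem_map]; exact ⟨p, hp, hpx⟩⟩
      have h2 : s = FreeGroup.mk s.toWord := FreeGroup.mk_toWord.symm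
      show φ s = 1
      rw [h2]
      show FreeGroup.lift _ (FreeGroup.mk s.toWord) = 1
      rw [FreeGroup.lift_mk]
      apply List.prod_eq_one
      intro y hy
      rw [List.mem_map] at hy
      obtain ⟨p, hp, rfl⟩ := hy
      simp [hs' p hp]
    have h2 : φ (FreeGroup.of x) = 1 := by rw [h1]; rfl
    have h3 : φ (FreeGroup.of x) = Multiplicative.ofAdd 1 := by simp [φ]
    rw [h3] at h2
    exact absurd h2 (by decide)
  exact Finite.of_injective (fun x : X => (⟨x, key x⟩ : L)) fun a b h => congrArg Subtype.val h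

/-- All finitely generated subgroups of the subgroup `C` are virtually free. -/
def LFS (C : Subgroup H) : Prop :=
  ∀ S : Finset H, (S : Set H) ⊆ C → ∃ F : Subgroup H, F ≤ Subgroup.closure (S : Set H) ∧
    F.relIndex (Subgroup.closure (S : Set H)) ≠ 0 ∧ IsFreeGroup F

theorem van_lfs (hP : IsFP H) (h12 : H12 H) (C : Subgroup H) (hC : LFS C) : Van H (H ⧸ C) := by
  classical
  obtain ⟨n, P, d, ε, hproj, hfin, -, heq, hsurj, hex0, hex⟩ := hP
  have := hproj 0
  have := hproj 1
  have := hfin 2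
  refine Pool.Agent.H50.WT.van_local (P0 := P 0) (P1 := P 1) (P2 := P 2) (d 0) (d 1) ε heq hsurj
    hex0 (hex 0) C ?_
  intro S hS
  obtain ⟨K, hKS, hKi, hfree⟩ := hC S hS
  refine ⟨Subgroup.closure (S : Set H), (Subgroup.closure_le C).mpr hS,
    Subgroup.subset_closure, ?_⟩
  apply van_transfer K _ hKS hKi
  let e : K ≃* FreeGroup (IsFreeGroup.Generators K) := IsFreeGroup.toFreeGroup K
  have hfgK : Group.FG K := by
    have h1 : Group.FG (Subgroup.closure (S : Set H)) := by
      rw [Group.fg_iff_subgroup_fg]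
      exact ⟨S, rfl⟩
    have h2 : Group.FG (K.subgroupOf (Subgroup.closure (S : Set H))) := by
      have h3 : (K.subgroupOf (Subgroup.closure (S : Set H))).FiniteIndex := ⟨hKi⟩
      exact Subgroup.fg_of_index_ne_zero _
    exact Group.fg_of_surjective (f := (Subgroup.subgroupOfEquivOfLe hKS).toMonoidHom)
      (Subgroup.subgroupOfEquivOfLe hKS).surjective
  have hfg : Group.FG (FreeGroup (IsFreeGroup.Generators K)) :=
    Group.fg_of_surjective (f := e.toMonoidHom) e.surjective
  have hfinite : Finite (IsFreeGroup.Generators K) := finite_of_fg_freeGroup _ hfg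
  let φ : FreeGroup (IsFreeGroup.Generators K) →* H := K.subtype.comp e.symm.toMonoidHom
  have hφ : Function.Injective φ := by
    intro a b hab
    exact e.symm.injective (K.subtype_injective hab)
  have hr : φ.range = K := by
    ext x
    constructor
    · rintro ⟨a, rfl⟩
      exact (e.symm a).2
    · intro hx
      exact ⟨e ⟨x, hx⟩, by simp [φ]⟩
  have h3 := van_free (van_of_subsingleton h12.1) (van2_of_subsingleton h12.2) φ hφ
  rw [hr] at h3
  exact h3

theorem IsFP.fg (hP : IsFP H) : Group.FG H := by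
  obtain ⟨n, P, d, ε, hproj, hfin, -, heq, hsurj, hex0, hex⟩ := hP
  have := hproj 0
  have := hfin 1
  exact Pool.Agent.H986PD.fg_of_FP (P 0) (P 1) (d 0) ε hsurj heq hex0

theorem IsFP.torsionFree (hP : IsFP H) (g : H) (hg : IsOfFinOrder g) : g = 1 := by
  obtain ⟨n, P, d, ε, hproj, hfin, hm, heq, hsurj, hex0, hex⟩ := hP
  exact Pool.Agent.Q138.PD.torsion_free (P := fun i => P i) d ε n hproj hm hsurj heq hex0 hex g hg

theorem mapDomain_smul_apply {X : Type} [MulAction H X] (g : H) (y : X →₀ ℤ) (x : X) :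
    y.mapDomain (fun z => g • z) x = y (g⁻¹ • x) := by
  have h1 : x = g • (g⁻¹ • x) := by simp
  conv_lhs => rw [h1]
  exact Finsupp.mapDomain_apply (f := fun z : X => g • z) (MulAction.injective g) y (g⁻¹ • x)

/-- Pulling back along an injective homomorphism. -/
theorem LFS.of_hom {H' : Type} [Group H'] {C : Subgroup H} {C' : Subgroup H'} (hC' : LFS C')
    (φ : H →* H') (hφ : Function.Injective φ) (h : ∀ x ∈ C, φ x ∈ C') : LFS C := by
  classical
  intro S hS
  obtain ⟨F, h1, h2, h3⟩ := hC' (S.image φ) (by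
    intro y hy
    simp only [Finset.coe_image, Set.mem_image] at hy
    obtain ⟨x, hx, rfl⟩ := hy
    exact h x (hS hx))
  have h4 : Subgroup.closure ((S.image φ : Finset H') : Set H') =
      (Subgroup.closure (S : Set H)).map φ := by
    rw [Finset.coe_image, MonoidHom.map_closure]
  rw [h4] at h1 h2
  have h5 : F.comap φ ≤ Subgroup.closure (S : Set H) := by
    intro x hx
    obtain ⟨y, hy, hyx⟩ := h1 hx
    rwa [← hφ hyx]
  refine ⟨F.comap φ, h5, ?_, ?_⟩
  · rw [Subgroup.relIndex_comap]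
    exact h2
  · have h6 : (F.comap φ).map φ = F := by
      rw [Subgroup.map_comap_eq]
      refine inf_eq_right.mpr (h1.trans ?_)
      rintro _ ⟨y, _, rfl⟩
      exact ⟨y, rfl⟩
    have e : (F.comap φ) ≃* ((F.comap φ).map φ) :=
      (F.comap φ).equivMapOfInjective φ hφ
    rw [h6] at e
    exact IsFreeGroup.ofMulEquiv e.symm

/-- Images under an injective homomorphism. -/
theorem LFS.map {H' : Type} [Group H'] {C : Subgroup H'} (hC : LFS C)
    (φ : H' →* H) (hφ : Function.Injective φ) : LFS (C.map φ) := by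
  classical
  intro S hS
  have hS' : ∀ x ∈ S, ∃ y ∈ C, φ y = x := fun x hx => hS hx
  choose! p hp1 hp2 using hS'
  obtain ⟨F, h1, h2, h3⟩ := hC (S.image p) (by
    intro y hy
    simp only [Finset.coe_image, Set.mem_image] at hy
    obtain ⟨x, hx, rfl⟩ := hy
    exact hp1 x hx)
  have h4 : Subgroup.closure (S : Set H) =
      (Subgroup.closure ((S.image p : Finset H') : Set H')).map φ := by
    rw [MonoidHom.map_closure]
    congr 1
    ext x
    simp only [Finset.coe_image, Set.mem_image]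
    constructor
    · intro hx
      exact ⟨p x, ⟨x, hx, rfl⟩, hp2 x hx⟩
    · rintro ⟨_, ⟨y, hy, rfl⟩, rfl⟩
      rw [hp2 y hy]
      exact hy
  rw [h4]
  refine ⟨F.map φ, Subgroup.map_mono h1, ?_, ?_⟩
  · rw [Subgroup.relIndex_map_map_of_injective _ _ hφ]
    exact h2
  · exact IsFreeGroup.ofMulEquiv (F.equivMapOfInjective φ hφ)

/-- Almost invariant functions on sets with locally virtually free point stabilizers are almost
equal to invariant functions. -/
def Good (H : Type) [Group H] : Prop :=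
  ∀ (X : Type) [MulAction H X] (χ : X → ℤ),
    (∀ g : H, {x | χ (g⁻¹ • x) ≠ χ x}.Finite) →
    (∀ x : X, (∃ g : H, χ (g⁻¹ • x) ≠ χ x) → LFS (MulAction.stabilizer H x)) →
    ∃ y : X →₀ ℤ, ∀ (g : H) (x : X), χ (g⁻¹ • x) - y (g⁻¹ • x) = χ x - y x

theorem good_of_van [Group.FG H] (hv : ∀ C : Subgroup H, LFS C → Van H (H ⧸ C)) : Good H := by
  classical
  intro X _ χ hfin hst
  let F : H → X →₀ ℤ := fun g => Finsupp.ofSupportFinite (fun x => χ (g⁻¹ • x) - χ x) (by
    refine (hfin g).subset fun x hx => ?_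
    simp only [Function.mem_support, ne_eq, sub_eq_zero] at hx
    exact hx)
  have hF : ∀ g x, F g x = χ (g⁻¹ • x) - χ x := fun g x => rfl
  have hcoc : Coc F := by
    intro g h
    ext x
    rw [Finsupp.add_apply, mapDomain_smul_apply, hF, hF, hF, mul_inv_rev, mul_smul]
    ring
  obtain ⟨y, hy⟩ := pri_of_fg F hcoc (by
    intro g x hgx
    apply hv
    apply hst
    refine ⟨g, fun h => hgx ?_⟩
    rw [hF, h, sub_self])
  refine ⟨y, fun g x => ?_⟩
  have h1 := DFunLike.congr_fun (hy g) x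
  rw [hF, Finsupp.sub_apply, mapDomain_smul_apply] at h1
  linarith

theorem good (hP : IsFP H) (h12 : H12 H) : Good H := by
  have := hP.fg
  exact good_of_van fun C hC => van_lfs hP h12 C hC

theorem good_fi (hP : IsFP H) (h12 : H12 H) (H₀ : Subgroup H) (hfi : H₀.index ≠ 0) :
    Good H₀ := by
  have := hP.fg
  have hfi' : H₀.FiniteIndex := ⟨hfi⟩
  have : Group.FG H₀ := Subgroup.fg_of_index_ne_zero _
  exact good_of_van fun C hC =>
    van_fi H₀ hfi C (van_lfs hP h12 _ (hC.map H₀.subtype H₀.subtype_injective))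

/-- The number of ends relative to a locally free subgroup. -/
theorem ends (hG : Good H) (C : Subgroup H) (hC : LFS C) (A : Set (H ⧸ C))
    (hA : ∀ g : H, {x | ¬ (g⁻¹ • x ∈ A ↔ x ∈ A)}.Finite) : A.Finite ∨ Aᶜ.Finite := by
  classical
  let χ : H ⧸ C → ℤ := fun x => if x ∈ A then 1 else 0
  have hχ : ∀ (x y : H ⧸ C), χ x ≠ χ y ↔ ¬ (x ∈ A ↔ y ∈ A) := by
    intro x y
    simp only [χ]
    by_cases h1 : x ∈ A <;> by_cases h2 : y ∈ A <;> simp [h1, h2]
  obtain ⟨y, hy⟩ := hG _ χ (by
    intro g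
    refine (hA g).subset fun x hx => ?_
    exact (hχ _ _).mp hx) (by
    intro x _
    obtain ⟨a, rfl⟩ := QuotientGroup.mk_surjective x
    refine LFS.of_hom hC (MulAut.conj a⁻¹).toMonoidHom (MulAut.conj a⁻¹).injective ?_
    intro g hg
    rw [MulAction.mem_stabilizer_iff] at hg
    have h1 : ((g * a : H) : H ⧸ C) = (a : H ⧸ C) := hg
    rw [QuotientGroup.eq] at h1
    have h2 := C.inv_mem h1
    have h3 : (MulAut.conj a⁻¹).toMonoidHom g = ((g * a)⁻¹ * a)⁻¹ := by
      simp [mul_assoc]
    rw [h3]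
    exact h2)
  by_contra hcon
  push Not at hcon
  obtain ⟨h1, h2⟩ := hcon
  obtain ⟨a, ha, ha'⟩ := Set.Infinite.exists_notMem_finset h1 y.support
  obtain ⟨b, hb, hb'⟩ := Set.Infinite.exists_notMem_finset h2 y.support
  obtain ⟨g, hg⟩ := MulAction.exists_smul_eq H a b
  have h3 := hy g b
  have h4 : g⁻¹ • b = a := by rw [← hg, inv_smul_smul]
  rw [h4, Finsupp.notMem_support_iff.mp ha', Finsupp.notMem_support_iff.mp hb'] at h3
  have h5 : χ a = 1 := if_pos ha
  have h6 : χ b = 0 := if_neg hb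
  rw [h5, h6] at h3
  norm_num at h3

/-- Actions on spaces with walls. -/
theorem walls (hG : Good H) {X W : Type} [MulAction H X] [MulAction H W]
    (inc : X → W → Prop) (hinc : ∀ (g : H) (x : X) (w : W), inc (g • x) (g • w) ↔ inc x w)
    (hfin : ∀ x y : X, {w | ¬ (inc x w ↔ inc y w)}.Finite)
    (hst : ∀ w : W, (∃ x y : X, ¬ (inc x w ↔ inc y w)) → LFS (MulAction.stabilizer H w)) (x : X) :
    ∃ N : ℕ, ∀ g : H, {w | ¬ (inc x w ↔ inc (g • x) w)}.ncard ≤ N := by
  classical
  let χ : W → ℤ := fun w => if inc x w then 1 else 0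
  have hχ : ∀ (g : H) (w : W), χ (g⁻¹ • w) = if inc (g • x) w then 1 else 0 := by
    intro g w
    have h1 : inc x (g⁻¹ • w) ↔ inc (g • x) w := by
      rw [← hinc g x (g⁻¹ • w), smul_inv_smul]
    simp only [χ, h1]
  have hχ2 : ∀ (g : H) (w : W), χ (g⁻¹ • w) ≠ χ w ↔ ¬ (inc x w ↔ inc (g • x) w) := by
    intro g w
    rw [hχ]
    simp only [χ]
    by_cases h1 : inc x w <;> by_cases h2 : inc (g • x) w <;> simp [h1, h2]
  obtain ⟨y, hy⟩ := hG _ χ (by
    intro g
    refine (hfin x (g • x)).subset fun w hw => ?_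
    exact (hχ2 g w).mp hw) (by
    rintro w ⟨g, hg⟩
    exact hst w ⟨x, g • x, (hχ2 g w).mp hg⟩)
  refine ⟨y.support.card + y.support.card, fun g => ?_⟩
  have h1 : {w | ¬ (inc x w ↔ inc (g • x) w)} ⊆
      ((y.support ∪ y.support.image (fun w => g • w) : Finset W) : Set W) := by
    intro w hw
    have h2 := (hχ2 g w).mpr hw
    rw [Finset.coe_union, Set.mem_union]
    by_contra hcon
    push Not at hcon
    obtain ⟨h3, h4⟩ := hcon
    apply h2
    have h5 := hy g w
    have h6 : y w = 0 := by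
      rw [← Finsupp.notMem_support_iff]
      exact_mod_cast h3
    have h7 : y (g⁻¹ • w) = 0 := by
      rw [← Finsupp.notMem_support_iff]
      intro h8
      apply h4
      rw [Finset.mem_coe, Finset.mem_image]
      exact ⟨g⁻¹ • w, h8, by simp⟩
    rw [h6, h7] at h5
    linarith
  calc {w | ¬ (inc x w ↔ inc (g • x) w)}.ncard
      ≤ (((y.support ∪ y.support.image (fun w => g • w) : Finset W) : Set W)).ncard :=
        Set.ncard_le_ncard h1 (Finset.finite_toSet _)
    _ = (y.support ∪ y.support.image (fun w => g • w)).card := Set.ncard_coe_finset _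
    _ ≤ y.support.card + (y.support.image (fun w => g • w)).card := Finset.card_union_le _ _
    _ ≤ _ := by
        have := Finset.card_image_le (s := y.support) (f := fun w => g • w)
        omega

theorem dist_smul {V : Type} (T : SimpleGraph V) (hT : T.IsTree) [MulAction H V]
    (hadj : ∀ (g : H) (u v : V), T.Adj u v → T.Adj (g • u) (g • v)) (g : H) (u v : V) :
    T.dist (g • u) (g • v) = T.dist u v := by
  have key : ∀ (g : H) (u v : V), T.dist (g • u) (g • v) ≤ T.dist u v := by
    intro g u v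
    obtain ⟨p, hp⟩ := hT.connected.exists_walk_length_eq_dist u v
    let f : T →g T := ⟨fun x => g • x, fun {a b} h => hadj g a b h⟩
    have h1 := SimpleGraph.dist_le (p.map f)
    rw [SimpleGraph.Walk.length_map, hp] at h1
    exact h1
  refine le_antisymm (key g u v) ?_
  have := key g⁻¹ (g • u) (g • v)
  simpa using this

/-- Actions on trees. -/
theorem tree_fixed (hG : Good H) {V : Type} (T : SimpleGraph V) (hT : T.IsTree)
    [MulAction H V] (hadj : ∀ (g : H) (u v : V), T.Adj u v → T.Adj (g • u) (g • v))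
    (hst : ∀ u v : V, T.Adj u v →
      LFS (MulAction.stabilizer H u ⊓ MulAction.stabilizer H v)) :
    (∃ v : V, ∀ g : H, g • v = v) ∨ ∃ (u v : V) (g : H), T.Adj u v ∧ g • u = v ∧ g • v = u := by
  classical
  obtain ⟨v0⟩ : Nonempty V := hT.connected.nonempty
  have hadj' : ∀ (g : H) (u v : V), T.Adj (g • u) (g • v) ↔ T.Adj u v := by
    intro g u v
    refine ⟨fun h => ?_, hadj g u v⟩
    have := hadj g⁻¹ _ _ h
    simpa using this
  let χ : V × V → ℤ := fun e => if T.Adj e.1 e.2 then (T.dist v0 e.1 : ℤ) - T.dist v0 e.2 else 0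
  have hχ : ∀ (g : H) (e : V × V), χ (g⁻¹ • e) = if T.Adj e.1 e.2 then
      (T.dist (g • v0) e.1 : ℤ) - T.dist (g • v0) e.2 else 0 := by
    intro g e
    have h1 : ∀ u : V, T.dist v0 (g⁻¹ • u) = T.dist (g • v0) u := by
      intro u
      rw [← dist_smul T hT hadj g v0 (g⁻¹ • u), smul_inv_smul]
    simp only [χ, Prod.smul_fst, Prod.smul_snd, hadj', h1]
  have hF : ∀ g : H, ∃ F : V × V →₀ ℤ, (∀ e, F e = χ (g⁻¹ • e) - χ e) ∧
      F.mapDomain Prod.snd - F.mapDomain Prod.fst
        = Finsupp.single (g • v0) (4 : ℤ) - Finsupp.single v0 4 := by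
    intro g
    obtain ⟨F, hF1, hF2⟩ := tree_chain T hT v0 (g • v0)
    refine ⟨F, fun e => ?_, hF2⟩
    rw [hF1, hχ]
    simp only [χ]
    split_ifs <;> ring
  choose F hF1 hF2 using hF
  obtain ⟨y, hy⟩ := hG _ χ (by
    intro g
    refine (F g).support.finite_toSet.subset fun e he => ?_
    rw [Finset.mem_coe, Finsupp.mem_support_iff, hF1]
    exact fun h => he (sub_eq_zero.mp h)) (by
    rintro e ⟨g, hg⟩
    have h1 : T.Adj e.1 e.2 := by
      by_contra h2
      apply hg
      rw [hχ]
      simp only [χ, h2, if_false]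
    refine LFS.of_hom (hst e.1 e.2 h1) (MonoidHom.id H) Function.injective_id ?_
    intro x hx
    rw [MulAction.mem_stabilizer_iff] at hx
    exact ⟨congrArg Prod.fst hx, congrArg Prod.snd hx⟩)
  let w : V →₀ ℤ := Finsupp.single v0 4 - (y.mapDomain Prod.snd - y.mapDomain Prod.fst)
  have hyF : ∀ g : H, y.mapDomain (fun e => g • e) = y + F g := by
    intro g
    ext e
    rw [mapDomain_smul_apply, Finsupp.add_apply, hF1]
    have := hy g e
    linarith
  have hw : ∀ g : H, w.mapDomain (fun v => g • v) = w := by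
    intro g
    have h1 : ∀ (p : V × V → V) (hp : ∀ e, p (g • e) = g • p e),
        (y.mapDomain p).mapDomain (fun v => g • v) = y.mapDomain p + (F g).mapDomain p := by
      intro p hp
      rw [← Finsupp.mapDomain_comp]
      have h2 : (fun v => g • v) ∘ p = p ∘ (fun e => g • e) := by
        funext e
        exact (hp e).symm
      rw [h2, Finsupp.mapDomain_comp, hyF, Finsupp.mapDomain_add]
    have h3 := h1 Prod.snd (fun e => rfl)
    have h4 := h1 Prod.fst (fun e => rfl)
    have h5 := hF2 g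
    have hsub : ∀ a b : V →₀ ℤ, (a - b).mapDomain (fun v => g • v) =
        a.mapDomain (fun v => g • v) - b.mapDomain (fun v => g • v) := by
      intro a b
      exact map_sub (Finsupp.mapDomain.addMonoidHom (fun v : V => g • v)) a b
    simp only [w]
    rw [hsub, hsub, h3, h4, Finsupp.mapDomain_single]
    have h6 : (F g).mapDomain Prod.snd = (F g).mapDomain Prod.fst +
        (Finsupp.single (g • v0) (4 : ℤ) - Finsupp.single v0 4) := by
      rw [← h5]; abel
    rw [h6]
    abel
  have hsum : w.sum (fun _ n => n) = 4 := by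
    have h1 : ∀ a b : V →₀ ℤ, (a - b).sum (fun _ n => n) = a.sum (fun _ n => n) -
        b.sum (fun _ n => n) := by
      intro a b
      exact Finsupp.sum_sub_index (fun _ _ _ => rfl)
    have h2 : ∀ p : V × V → V, (y.mapDomain p).sum (fun _ n => n) = y.sum (fun _ n => n) := by
      intro p
      rw [Finsupp.sum_mapDomain_index (fun _ => rfl) (fun _ _ _ => rfl)]
    simp only [w]
    rw [h1, h1, h2, h2, sub_self, sub_zero, Finsupp.sum_single_index rfl]
  refine tree_fix T hT hadj w.support ?_ ?_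
  · rw [Finset.nonempty_iff_ne_empty]
    intro h
    rw [Finsupp.support_eq_empty] at h
    rw [h] at hsum
    simp at hsum
  · intro g v hv
    rw [Finsupp.mem_support_iff] at hv ⊢
    rw [← hw g, mapDomain_smul_apply, inv_smul_smul]
    exact hv

/-- A commensurated subset is almost equal to an invariant subset. -/
theorem transfix (hG : Good H) {X : Type} [MulAction H X] (A : Set X)
    (hfin : ∀ g : H, {x | ¬ (g⁻¹ • x ∈ A ↔ x ∈ A)}.Finite)
    (hst : ∀ x : X, (∃ g : H, ¬ (g⁻¹ • x ∈ A ↔ x ∈ A)) → LFS (MulAction.stabilizer H x)) :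
    ∃ B : Set X, (∀ (g : H) (x : X), x ∈ B ↔ g • x ∈ B) ∧ {x | ¬ (x ∈ A ↔ x ∈ B)}.Finite := by
  classical
  let χ : X → ℤ := fun x => if x ∈ A then 1 else 0
  have hχ : ∀ (x y : X), χ x ≠ χ y ↔ ¬ (x ∈ A ↔ y ∈ A) := by
    intro x y
    simp only [χ]
    by_cases h1 : x ∈ A <;> by_cases h2 : y ∈ A <;> simp [h1, h2]
  obtain ⟨y, hy⟩ := hG _ χ (by
    intro g
    refine (hfin g).subset fun x hx => ?_
    exact (hχ _ _).mp hx) (by
    rintro x ⟨g, hg⟩
    exact hst x ⟨g, (hχ _ _).mp hg⟩)
  refine ⟨{x | χ x - y x = 1}, ?_, ?_⟩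
  · intro g x
    have h1 := hy g (g • x)
    rw [inv_smul_smul] at h1
    simp only [Set.mem_ofPred_eq]
    rw [h1]
  · refine y.support.finite_toSet.subset fun x hx => ?_
    rw [Finset.mem_coe, Finsupp.mem_support_iff]
    intro h0
    apply hx
    simp only [Set.mem_ofPred_eq, h0, sub_zero, χ]
    by_cases h1 : x ∈ A <;> simp [h1]

/-- Systems of subsets which are closed under the majority (median graphs): finite orbits. -/
theorem sys_orbit (hG : Good H) {V Y : Type} [MulAction H V] [MulAction H Y] {A : V → Set Y}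
    (hA : Q182.Cc.Sys H A) (v : V)
    (hst : ∀ y : Y, (∃ u w : V, ¬ (y ∈ A u ↔ y ∈ A w)) → LFS (MulAction.stabilizer H y)) :
    ∃ u : V, (MulAction.orbit H u).Finite := by
  have key : ∀ (g : H) (y : Y), g⁻¹ • y ∈ A v ↔ y ∈ A (g • v) := by
    intro g y
    rw [hA.eqv g v (g⁻¹ • y), smul_inv_smul]
  obtain ⟨B, hB1, hB2⟩ := transfix hG (A v) (by
    intro g
    refine (hA.fin (g • v) v).subset fun y hy => ?_
    simp only [Set.mem_ofPred_eq] at hy
    rw [key] at hy
    exact hy) (by
    rintro y ⟨g, hg⟩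
    rw [key] at hg
    exact hst y ⟨_, _, hg⟩)
  exact sys_finite_orbit hA hB1 hB2

end Pool.Agent.H47.WT
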