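import Mathlib
import Pool.Agent.H47.WT.Main
import Pool.Agent.H47.WT.Defs2

set_option autoImplicit false

/-!
# The class of groups which satisfy the weak hyperbolization conjecture virtually
-/

namespace Pool.Agent.H47.WT

open scoped Pointwise

/-- `G` is a Poincare duality group of dimension three. -/
def IsPD3 (G : Type) [Group G] : Prop :=
  IsFP G ∧
  (∀ k : ℕ, k ≠ 3 → Subsingleton (groupCohomology (Rep.ofMulAction ℤ G G) k)) ∧
  Nonempty ((groupCohomology (Rep.ofMulAction ℤ G G) 3) ≃+ ℤ)

/-- `G` is hyperbolic: the word metric of some finite generating set satisfies the four-point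
condition. -/
def Hyperbolic (G : Type) [Group G] : Prop :=
  ∃ (S : Finset G) (dist : G → G → ℤ) (δ : ℤ),
    Subgroup.closure (S : Set G) = ⊤ ∧
    (∀ x y : G, dist x y = ((sInf {m : ℕ | ∃ l : List G, l.length = m ∧
        (∀ s ∈ l, s ∈ S ∨ s⁻¹ ∈ S) ∧ l.prod = x⁻¹ * y} : ℕ) : ℤ)) ∧
    ∀ w x y z : G,
      min (dist w x + dist w y - dist x y) (dist w y + dist w z - dist y z)
        ≤ dist w x + dist w z - dist x z + δ

/-- All atoroidal `PD(3)` groups which have a subgroup of finite index that embeds in `G` have the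
property `P`. -/
def Ctl (P : (H : Type) → [Group H] → Prop) (G : Type) [Group G] : Prop :=
  ∀ (H : Type) [Group H], IsPD3 H → Atoroidal H → ∀ H₀ : Subgroup H, H₀.index ≠ 0 →
    ∀ f : H₀ →* G, Function.Injective f → P H

variable {P : (H : Type) → [Group H] → Prop}

variable {H : Type} [Group H]

theorem IsPD3.h12 (h : IsPD3 H) : H12 H := ⟨h.2.1 1 (by norm_num), h.2.1 2 (by norm_num)⟩

theorem IsPD3.nontrivial (h : IsPD3 H) : Nontrivial H := by
  by_contra hcon
  rw [not_nontrivial_iff_subsingleton] at hcon
  obtain ⟨-, -, ⟨e⟩⟩ := h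
  have h1 := isZero_groupCohomology_succ_of_subsingleton (Rep.ofMulAction ℤ H H) 2
  have h2 : Subsingleton (groupCohomology (Rep.ofMulAction ℤ H H) 3) :=
    ModuleCat.subsingleton_of_isZero h1
  have h3 : e.symm 0 = e.symm 1 := Subsingleton.elim _ _
  exact absurd (e.symm.injective h3) (by norm_num)

theorem Atoroidal.of_hom {G : Type} [Group G] (hG : Atoroidal G) (φ : H →* G)
    (hφ : Function.Injective φ) : Atoroidal H := by
  rintro ⟨f, hf⟩
  exact hG ⟨φ.comp f, hφ.comp hf⟩

theorem isOfFinOrder_of_injective {G : Type} [Group G] (φ : H →* G) (hφ : Function.Injective φ)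
    {x : H} (h : IsOfFinOrder (φ x)) : IsOfFinOrder x := by
  rw [isOfFinOrder_iff_pow_eq_one] at h ⊢
  obtain ⟨n, hn, h1⟩ := h
  refine ⟨n, hn, hφ ?_⟩
  rw [map_pow, h1, map_one]

/-- In a torsion-free atoroidal group locally small subgroups are locally virtually free. -/
theorem lfs_of_small (htf : ∀ g : H, IsOfFinOrder g → g = 1) (hat : Atoroidal H)
    (C : Subgroup H) (hC : LocallySmall C) : LFS C := by
  classical
  intro S hS
  have hK : Subgroup.closure (S : Set H) ≤ C := (Subgroup.closure_le C).mpr hS
  have hmap : ((Subgroup.closure (S : Set H)).subgroupOf C).map C.subtype =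
      Subgroup.closure (S : Set H) := by
    rw [Subgroup.map_subgroupOf_eq_of_le hK]
  have e := Subgroup.subgroupOfEquivOfLe hK
  obtain ⟨F, h1, h2, h3⟩ := hC ((Subgroup.closure (S : Set H)).subgroupOf C) (by
    have h1 : Group.FG (Subgroup.closure (S : Set H)) := by
      rw [Group.fg_iff_subgroup_fg]
      exact ⟨S, rfl⟩
    rw [← Group.fg_iff_subgroup_fg]
    exact Group.fg_of_surjective (f := e.symm.toMonoidHom) e.symm.surjective) (by
    intro g _ hg
    have h1 : IsOfFinOrder (C.subtype g) := C.subtype.isOfFinOrder hg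
    have h2 := htf _ h1
    exact C.subtype_injective (by rw [h2, map_one])) (by
    refine Atoroidal.of_hom hat (C.subtype.comp (Subgroup.subtype _)) ?_
    exact C.subtype_injective.comp (Subgroup.subtype_injective _))
  refine ⟨F.map C.subtype, ?_, ?_, ?_⟩
  · calc F.map C.subtype ≤ ((Subgroup.closure (S : Set H)).subgroupOf C).map C.subtype :=
        Subgroup.map_mono h1
      _ = _ := hmap
  · have h4 := Subgroup.relIndex_map_map_of_injective F
      ((Subgroup.closure (S : Set H)).subgroupOf C) C.subtype_injective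
    rw [hmap] at h4
    rw [h4]
    exact h2
  · exact IsFreeGroup.ofMulEquiv (F.equivMapOfInjective C.subtype C.subtype_injective)

/-- Stabilizers, for an action through an injective homomorphism. -/
theorem lfs_stab {G Y : Type} [Group G] [MulAction G Y] (H₀ : Subgroup H)
    (htf : ∀ g : H, IsOfFinOrder g → g = 1) (hat : Atoroidal H) (f : H₀ →* G)
    (hf : Function.Injective f) (C : Subgroup H₀) (D : Subgroup G) (hD : LocallySmall D)
    (hCD : ∀ x ∈ C, f x ∈ D) : LFS C := by
  have htf₀ : ∀ g : H₀, IsOfFinOrder g → g = 1 := by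
    intro g hg
    have h1 := htf _ (H₀.subtype.isOfFinOrder hg)
    exact H₀.subtype_injective (by rw [h1, map_one])
  refine lfs_of_small htf₀ (Atoroidal.of_hom hat H₀.subtype H₀.subtype_injective) C ?_
  let φ : C →* D := (f.comp C.subtype).codRestrict D (fun x => hCD x x.2)
  have hφ : Function.Injective φ := by
    intro a b hab
    have h1 : f (C.subtype a) = f (C.subtype b) := congrArg Subtype.val hab
    exact C.subtype_injective (hf h1)
  refine small_hom φ (fun g hg => ?_) hD
  have h1 : g = 1 := hφ (by rw [hg, map_one])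
  rw [h1]
  exact IsOfFinOrder.one

/-- Reduction to a finite orbit. -/
theorem hyp_of_orbit {G V : Type} [Group G] [MulAction G V] (hH : IsPD3 H) (hat : Atoroidal H)
    (H₀ : Subgroup H) (hfi : H₀.index ≠ 0) (f : H₀ →* G) (hf : Function.Injective f) (u : V)
    (hV : Ctl P (MulAction.stabilizer G u)) (C : Subgroup H₀) (hC : C.index ≠ 0)
    (hCu : ∀ x ∈ C, f x • u = u) : P H := by
  let φ : C →* MulAction.stabilizer G u :=
    (f.comp C.subtype).codRestrict _ (fun x => hCu x x.2)
  have hφ : Function.Injective φ := by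
    intro a b hab
    have h1 : f (C.subtype a) = f (C.subtype b) := congrArg Subtype.val hab
    exact C.subtype_injective (hf h1)
  let e : C ≃* (C.map H₀.subtype) := C.equivMapOfInjective H₀.subtype H₀.subtype_injective
  refine hV H hH hat (C.map H₀.subtype) ?_ (φ.comp e.symm.toMonoidHom)
    (hφ.comp e.symm.injective)
  rw [Subgroup.index_map_subtype]
  exact mul_ne_zero hC hfi

/-- The class is closed under actions on median graphs (`CAT(0)` cube complexes) with locally small
stabilizers of half-spaces. -/
theorem ctl_median {G V : Type} [Group G] [MulAction G V] (X : SimpleGraph V)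
    (hX : Q182.Cc.Median X) (hact : ∀ (g : G) (v w : V), X.Adj v w → X.Adj (g • v) (g • w))
    (hE : ∀ u v : V, X.Adj u v → LocallySmall (MulAction.stabilizer G (Q182.Cc.Wd X u v)))
    (hV : ∀ v : V, Ctl P (MulAction.stabilizer G v)) : Ctl P G := by
  intro H _ hH hat H₀ hfi f hf
  obtain ⟨v⟩ : Nonempty V := hX.1.nonempty
  let : MulAction H₀ V := MulAction.compHom V f
  have hG := good_fi hH.1 hH.h12 H₀ hfi
  have hsys : Q182.Cc.Sys H₀ (Q182.Cc.HS X) := hX.sys (fun g v w h => hact (f g) v w h)
  have hY : ∀ y : Set V, (∃ u w : V, ¬ (y ∈ Q182.Cc.HS X u ↔ y ∈ Q182.Cc.HS X w)) →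
      LFS (MulAction.stabilizer H₀ y) := by
    intro y hy
    have h1 : ∃ a b : V, X.Adj a b ∧ y = Q182.Cc.Wd X a b := by
      obtain ⟨u, w, huw⟩ := hy
      by_contra hcon
      apply huw
      constructor
      · rintro ⟨_, h⟩
        exact absurd h hcon
      · rintro ⟨_, h⟩
        exact absurd h hcon
    obtain ⟨a, b, hab, rfl⟩ := h1
    refine lfs_stab (Y := Set V) H₀ hH.1.torsionFree hat f hf _ _ (hE a b hab) ?_
    intro x hx
    exact hx
  obtain ⟨u, hu⟩ := sys_orbit hG hsys v hY
  refine hyp_of_orbit hH hat H₀ hfi f hf u (hV u) (MulAction.stabilizer H₀ u) ?_ ?_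
  · rw [MulAction.index_stabilizer]
    exact Set.ncard_ne_zero_of_mem (MulAction.mem_orbit_self u) hu
  · intro x hx
    exact hx

/-- The class is closed under actions on trees without inversions with locally small edge
stabilizers. -/
theorem ctl_tree {G V : Type} [Group G] [MulAction G V] (T : SimpleGraph V)
    (hT : T.IsTree) (hact : ∀ (g : G) (v w : V), T.Adj v w → T.Adj (g • v) (g • w))
    (hinv : ∀ (g : G) (u v : V), T.Adj u v → g • u = v → g • v ≠ u)
    (hE : ∀ u v : V, T.Adj u v →
      LocallySmall (MulAction.stabilizer G u ⊓ MulAction.stabilizer G v : Subgroup G))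
    (hV : ∀ v : V, Ctl P (MulAction.stabilizer G v)) : Ctl P G := by
  intro H _ hH hat H₀ hfi f hf
  let : MulAction H₀ V := MulAction.compHom V f
  have hG := good_fi hH.1 hH.h12 H₀ hfi
  rcases tree_fixed hG T hT (fun g v w h => hact (f g) v w h) (by
    intro u v huv
    refine lfs_stab (Y := V) H₀ hH.1.torsionFree hat f hf _ _ (hE u v huv) ?_
    intro x hx
    exact hx) with ⟨v, hv⟩ | ⟨u, v, g, huv, h1, h2⟩
  · refine hyp_of_orbit hH hat H₀ hfi f hf v (hV v) ⊤ ?_ ?_
    · rw [Subgroup.index_top]
      exact one_ne_zero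
    · intro x _
      exact hv x
  · exact absurd h2 (hinv (f g) u v huv h1)

/-- The class is closed under groups which embed. -/
theorem Ctl.of_hom {G G' : Type} [Group G] [Group G'] (h : Ctl P G) (φ : G' →* G)
    (hφ : Function.Injective φ) : Ctl P G' := by
  intro H _ hH hat H₀ hfi f hf
  exact h H hH hat H₀ hfi (φ.comp f) (hφ.comp hf)

/-- The class is closed under overgroups of finite index. -/
theorem Ctl.fi {G : Type} [Group G] (G₀ : Subgroup G) (hG₀ : G₀.index ≠ 0)
    (h : Ctl P G₀) : Ctl P G := by
  intro H _ hH hat H₀ hfi f hf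
  have h1 : (G₀.comap f).index ≠ 0 := by
    rw [Subgroup.index_comap]
    intro h0
    exact hG₀ (Subgroup.index_eq_zero_of_relIndex_eq_zero h0)
  let C := G₀.comap f
  let φ : C →* G₀ := (f.comp C.subtype).codRestrict _ (fun x => x.2)
  have hφ : Function.Injective φ := by
    intro a b hab
    have h1 : f (C.subtype a) = f (C.subtype b) := congrArg Subtype.val hab
    exact C.subtype_injective (hf h1)
  let e : C ≃* (C.map H₀.subtype) := C.equivMapOfInjective H₀.subtype H₀.subtype_injective
  refine h H hH hat (C.map H₀.subtype) ?_ (φ.comp e.symm.toMonoidHom)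
    (hφ.comp e.symm.injective)
  rw [Subgroup.index_map_subtype]
  exact mul_ne_zero h1 hfi

theorem lfs_of_free {F : Type} [Group F] [IsFreeGroup F] (C : Subgroup F) : LFS C := by
  intro S _
  refine ⟨Subgroup.closure (S : Set F), le_rfl, ?_, inferInstance⟩
  rw [Subgroup.relIndex_self]
  exact one_ne_zero

/-- `PD(3)` groups are not virtually free. -/
theorem IsPD3.not_free (hH : IsPD3 H) (F : Subgroup H) (hF : F.index ≠ 0) :
    ¬ IsFreeGroup F := by
  intro hfree
  have h1 : Group.FG H := hH.1.fg
  have hF' : F.FiniteIndex := ⟨hF⟩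
  have h2 : Group.FG F := Subgroup.fg_of_index_ne_zero _
  have hv : Van F F := by
    intro f hf
    refine pri_of_fg f hf fun g x _ => ?_
    exact van_fi F hF _ (van_lfs hH.1 hH.h12 _ ((lfs_of_free _).map F.subtype
      F.subtype_injective))
  have h3 : Subsingleton F := free_van F hv
  have h4 : F = ⊥ := Subgroup.eq_bot_of_subsingleton F
  rw [h4, Subgroup.index_bot] at hF
  have h5 : Finite H := Nat.finite_of_card_ne_zero hF
  have h6 := hH.nontrivial
  obtain ⟨g, hg⟩ := exists_ne (1 : H)
  exact hg (hH.1.torsionFree g (isOfFinOrder_of_finite g))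

/-- Locally small groups virtually contain no atoroidal `PD(3)` group. -/
theorem no_pd3 {G : Type} [Group G] (hG : LocallySmall G) (hH : IsPD3 H) (hat : Atoroidal H)
    (H₀ : Subgroup H) (hfi : H₀.index ≠ 0) (f : H₀ →* G) (hf : Function.Injective f) : False := by
  have h1 : LocallySmall H₀ := small_hom f (fun g hg => by
    have h1 : g = 1 := hf (by rw [hg, map_one])
    rw [h1]
    exact IsOfFinOrder.one) hG
  have h2 : Group.FG H := hH.1.fg
  have hfi' : H₀.FiniteIndex := ⟨hfi⟩
  have h3 : Group.FG H₀ := Subgroup.fg_of_index_ne_zero _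
  have h5 : ∀ g : H₀, IsOfFinOrder g → g = 1 := by
    intro g hg
    have h1 := hH.1.torsionFree _ (H₀.subtype.isOfFinOrder hg)
    exact H₀.subtype_injective (by rw [h1, map_one])
  obtain ⟨F, -, h6, h7⟩ := h1 ⊤ ((Group.fg_def).mp h3) (fun g _ => h5 g) (by
    exact Atoroidal.of_hom hat (H₀.subtype.comp (Subgroup.subtype ⊤))
      (H₀.subtype_injective.comp (Subgroup.subtype_injective ⊤)))
  rw [Subgroup.relIndex_top_right] at h6
  refine hH.not_free (F.map H₀.subtype) ?_ ?_
  · rw [Subgroup.index_map_subtype]
    exact mul_ne_zero h6 hfi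
  · exact IsFreeGroup.ofMulEquiv (F.equivMapOfInjective H₀.subtype H₀.subtype_injective)

/-- Locally small groups are in the class. -/
theorem Ctl.of_small {G : Type} [Group G] (hG : LocallySmall G) : Ctl P G := by
  intro H _ hH hat H₀ hfi f hf
  exact (no_pd3 hG hH hat H₀ hfi f hf).elim

/-- In a torsion-free group without `ℤ × ℤ` two elements of two normal subgroups with trivial
intersection: one of them is trivial. -/
theorem trivial_or_of_commute {K : Type} [Group K] (htf : ∀ g : K, IsOfFinOrder g → g = 1)
    (hat : Atoroidal K) (a b : K) (hab : a * b = b * a)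
    (hint : ∀ m n : ℤ, a ^ m = b ^ n → a ^ m = 1) : a = 1 ∨ b = 1 := by
  by_contra hcon
  push Not at hcon
  obtain ⟨ha, hb⟩ := hcon
  apply hat
  have hcomm : Commute a b := hab
  let f : Multiplicative (ℤ × ℤ) →* K :=
    { toFun := fun p => a ^ (Multiplicative.toAdd p).1 * b ^ (Multiplicative.toAdd p).2
      map_one' := by simp
      map_mul' := by
        intro p q
        simp only [toAdd_mul, Prod.fst_add, Prod.snd_add, zpow_add]
        have h1 := (hcomm.zpow_zpow (Multiplicative.toAdd q).1 (Multiplicative.toAdd p).2).eq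
        calc a ^ (Multiplicative.toAdd p).1 * a ^ (Multiplicative.toAdd q).1 *
              (b ^ (Multiplicative.toAdd p).2 * b ^ (Multiplicative.toAdd q).2)
            = a ^ (Multiplicative.toAdd p).1 * (a ^ (Multiplicative.toAdd q).1 *
              b ^ (Multiplicative.toAdd p).2) * b ^ (Multiplicative.toAdd q).2 := by
              simp only [mul_assoc]
          _ = a ^ (Multiplicative.toAdd p).1 * (b ^ (Multiplicative.toAdd p).2 *
              a ^ (Multiplicative.toAdd q).1) * b ^ (Multiplicative.toAdd q).2 := by rw [h1]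
          _ = _ := by simp only [mul_assoc] }
  have hz : ∀ (x : K), x ≠ 1 → ∀ n : ℤ, x ^ n = 1 → n = 0 := by
    intro x hx n hn
    by_contra h0
    apply hx
    apply htf
    exact isOfFinOrder_iff_zpow_eq_one.mpr ⟨n, h0, hn⟩
  refine ⟨f, (injective_iff_map_eq_one f).mpr ?_⟩
  intro p hp
  have h1 : a ^ (Multiplicative.toAdd p).1 * b ^ (Multiplicative.toAdd p).2 = 1 := hp
  have h2 : a ^ (Multiplicative.toAdd p).1 = b ^ (-(Multiplicative.toAdd p).2) := by
    rw [zpow_neg]
    exact eq_inv_of_mul_eq_one_left h1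
  have h3 := hint _ _ h2
  have h4 := hz a ha _ h3
  rw [h3] at h2
  have h5 := hz b hb _ h2.symm
  have h6 : Multiplicative.toAdd p = (0, 0) := by
    apply Prod.ext
    · exact h4
    · show (Multiplicative.toAdd p).2 = 0
      omega
  exact h6

/-- The class is closed under extensions with torsion kernel. -/
theorem Ctl.hom {G Q : Type} [Group G] [Group Q] (h : Ctl P Q) (φ : G →* Q)
    (hφ : ∀ g : G, φ g = 1 → IsOfFinOrder g) : Ctl P G := by
  intro H _ hH hat H₀ hfi f hf
  refine h H hH hat H₀ hfi (φ.comp f) ?_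
  rw [injective_iff_map_eq_one]
  intro x hx
  have h1 : IsOfFinOrder (f x) := hφ _ hx
  have h2 : IsOfFinOrder x := isOfFinOrder_of_injective f hf h1
  have h3 := hH.1.torsionFree _ (H₀.subtype.isOfFinOrder h2)
  exact H₀.subtype_injective (by rw [h3, map_one])

/-- The class is closed under direct products. -/
theorem Ctl.prod {G Q : Type} [Group G] [Group Q] (h : Ctl P G) (h' : Ctl P Q) :
    Ctl P (G × Q) := by
  intro H _ hH hat H₀ hfi f hf
  have htf : ∀ g : H₀, IsOfFinOrder g → g = 1 := by
    intro g hg
    have h1 := hH.1.torsionFree _ (H₀.subtype.isOfFinOrder hg)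
    exact H₀.subtype_injective (by rw [h1, map_one])
  have hat₀ : Atoroidal H₀ := Atoroidal.of_hom hat H₀.subtype H₀.subtype_injective
  by_cases h1 : ∀ x : H₀, (f x).1 = 1 → x = 1
  · refine h H hH hat H₀ hfi ((MonoidHom.fst G Q).comp f) ?_
    rw [injective_iff_map_eq_one]
    exact h1
  · by_cases h2 : ∀ x : H₀, (f x).2 = 1 → x = 1
    · refine h' H hH hat H₀ hfi ((MonoidHom.snd G Q).comp f) ?_
      rw [injective_iff_map_eq_one]
      exact h2
    · exfalso
      push Not at h1 h2
      obtain ⟨a, ha, ha'⟩ := h1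
      obtain ⟨b, hb, hb'⟩ := h2
      rcases trivial_or_of_commute htf hat₀ a b (by
        apply hf
        apply Prod.ext <;> simp [ha, hb]) (by
        intro m n hmn
        apply hf
        have h3 := congrArg f hmn
        apply Prod.ext
        · simp [ha]
        · rw [h3]
          simp [hb]) with h3 | h3
      · exact ha' h3
      · exact hb' h3

/-- The class is closed under directed unions: only the finitely generated subgroups matter. -/
theorem Ctl.local {G : Type} [Group G] (h : ∀ K : Subgroup G, K.FG → Ctl P K) : Ctl P G := by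
  intro H _ hH hat H₀ hfi f hf
  have h2 : Group.FG H := hH.1.fg
  have hfi' : H₀.FiniteIndex := ⟨hfi⟩
  have h3 : Group.FG H₀ := Subgroup.fg_of_index_ne_zero _
  have h4 : Group.FG f.range := Group.fg_of_surjective (f := f.rangeRestrict)
    f.rangeRestrict_surjective
  refine h f.range ((Group.fg_iff_subgroup_fg _).mp h4) H hH hat H₀ hfi f.rangeRestrict ?_
  intro a b hab
  exact hf (congrArg Subtype.val hab)

end Pool.Agent.H47.WT
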