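import Mathlib
import Pool.Agent.H47.WT.Clos

set_option autoImplicit false

/-!
# Closure properties, for all `PD(n)` groups, atoroidal or not
-/

namespace Pool.Agent.H47.WT

open scoped Pointwise

/-- `G` is a Poincare duality group of dimension `n`. -/
def IsPDn (n : ℕ) (G : Type) [Group G] : Prop :=
  IsFP G ∧
  (∀ k : ℕ, k ≠ n → Subsingleton (groupCohomology (Rep.ofMulAction ℤ G G) k)) ∧
  Nonempty ((groupCohomology (Rep.ofMulAction ℤ G G) n) ≃+ ℤ)

/-- Every finitely generated torsion-free subgroup of `G` is virtually free. -/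
def VSmall (G : Type) [Group G] : Prop :=
  ∀ K : Subgroup G, K.FG → (∀ g ∈ K, IsOfFinOrder g → g = 1) →
    ∃ F : Subgroup G, F ≤ K ∧ F.relIndex K ≠ 0 ∧ IsFreeGroup F

/-- All `PD(n)` groups which have a subgroup of finite index that embeds in `G` have the
property `P`. -/
def CtlN (n : ℕ) (P : (H : Type) → [Group H] → Prop) (G : Type) [Group G] : Prop :=
  ∀ (H : Type) [Group H], IsPDn n H → ∀ H₀ : Subgroup H, H₀.index ≠ 0 →
    ∀ f : H₀ →* G, Function.Injective f → P H

variable {P : (H : Type) → [Group H] → Prop} {n : ℕ}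

variable {H : Type} [Group H]

theorem IsPDn.h12 (hn : 3 ≤ n) (h : IsPDn n H) : H12 H :=
  ⟨h.2.1 1 (by omega), h.2.1 2 (by omega)⟩

theorem IsPDn.nontrivial (hn : 3 ≤ n) (h : IsPDn n H) : Nontrivial H := by
  by_contra hcon
  rw [not_nontrivial_iff_subsingleton] at hcon
  obtain ⟨-, -, ⟨e⟩⟩ := h
  obtain ⟨m, rfl⟩ : ∃ m, n = m + 1 := ⟨n - 1, by omega⟩
  have h1 := isZero_groupCohomology_succ_of_subsingleton (Rep.ofMulAction ℤ H H) m
  have h2 : Subsingleton (groupCohomology (Rep.ofMulAction ℤ H H) (m + 1)) :=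
    ModuleCat.subsingleton_of_isZero h1
  have h3 : e.symm 0 = e.symm 1 := Subsingleton.elim _ _
  exact absurd (e.symm.injective h3) (by norm_num)

theorem vsmall_use {G : Type} [Group G] (hG : VSmall G) (K : Type) [Group K] (ι : K →* G)
    (hι : Function.Injective ι) (htf : ∀ g : K, IsOfFinOrder g → g = 1) (S : Finset K) :
    ∃ F : Subgroup K, F ≤ Subgroup.closure (S : Set K) ∧
      F.relIndex (Subgroup.closure (S : Set K)) ≠ 0 ∧ IsFreeGroup F := by
  classical
  have h4 : Subgroup.closure ((S.image ι : Finset G) : Set G) =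
      (Subgroup.closure (S : Set K)).map ι := by
    rw [Finset.coe_image, MonoidHom.map_closure]
  obtain ⟨F, h1, h2, h3⟩ := hG (Subgroup.closure ((S.image ι : Finset G) : Set G))
    ⟨_, rfl⟩ (by
      intro g hg hfo
      rw [h4] at hg
      obtain ⟨x, _, rfl⟩ := hg
      rw [htf x (isOfFinOrder_of_injective ι hι hfo), map_one])
  rw [h4] at h1 h2
  have h5 : F.comap ι ≤ Subgroup.closure (S : Set K) := by
    intro x hx
    obtain ⟨y, hy, hyx⟩ := h1 hx
    rwa [← hι hyx]
  refine ⟨F.comap ι, h5, ?_, ?_⟩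
  · rw [Subgroup.relIndex_comap]
    exact h2
  · have h6 : (F.comap ι).map ι = F := by
      rw [Subgroup.map_comap_eq]
      refine inf_eq_right.mpr (h1.trans ?_)
      rintro _ ⟨y, _, rfl⟩
      exact ⟨y, rfl⟩
    have e : (F.comap ι) ≃* ((F.comap ι).map ι) := (F.comap ι).equivMapOfInjective ι hι
    rw [h6] at e
    exact IsFreeGroup.ofMulEquiv e.symm

/-- Stabilizers, for an action through an injective homomorphism. -/
theorem lfs_stabN {G : Type} [Group G] (H₀ : Subgroup H)
    (htf : ∀ g : H, IsOfFinOrder g → g = 1) (f : H₀ →* G)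
    (hf : Function.Injective f) (C : Subgroup H₀) (D : Subgroup G) (hD : VSmall D)
    (hCD : ∀ x ∈ C, f x ∈ D) : LFS C := by
  classical
  have htfC : ∀ g : C, IsOfFinOrder g → g = 1 := by
    intro g hg
    have h1 := htf _ (H₀.subtype.isOfFinOrder (C.subtype.isOfFinOrder hg))
    exact C.subtype_injective (H₀.subtype_injective (by rw [h1, map_one, map_one]))
  let φ : C →* D := (f.comp C.subtype).codRestrict D (fun x => hCD x x.2)
  have hφ : Function.Injective φ := by
    intro a b hab
    have h1 : f (C.subtype a) = f (C.subtype b) := congrArg Subtype.val hab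
    exact C.subtype_injective (hf h1)
  have key : LFS (⊤ : Subgroup C) := by
    intro S _
    exact vsmall_use hD C φ hφ htfC S
  have h2 := key.map C.subtype C.subtype_injective
  have h3 : (⊤ : Subgroup C).map C.subtype = C := by
    rw [← MonoidHom.range_eq_map, Subgroup.range_subtype]
  rwa [h3] at h2

/-- Reduction to a finite orbit. -/
theorem hyp_of_orbitN {G V : Type} [Group G] [MulAction G V] (hH : IsPDn n H)
    (H₀ : Subgroup H) (hfi : H₀.index ≠ 0) (f : H₀ →* G) (hf : Function.Injective f) (u : V)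
    (hV : CtlN n P (MulAction.stabilizer G u)) (C : Subgroup H₀) (hC : C.index ≠ 0)
    (hCu : ∀ x ∈ C, f x • u = u) : P H := by
  let φ : C →* MulAction.stabilizer G u :=
    (f.comp C.subtype).codRestrict _ (fun x => hCu x x.2)
  have hφ : Function.Injective φ := by
    intro a b hab
    have h1 : f (C.subtype a) = f (C.subtype b) := congrArg Subtype.val hab
    exact C.subtype_injective (hf h1)
  let e : C ≃* (C.map H₀.subtype) := C.equivMapOfInjective H₀.subtype H₀.subtype_injective
  refine hV H hH (C.map H₀.subtype) ?_ (φ.comp e.symm.toMonoidHom)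
    (hφ.comp e.symm.injective)
  rw [Subgroup.index_map_subtype]
  exact mul_ne_zero hC hfi

theorem ctlN_median {G V : Type} [Group G] [MulAction G V] (hn : 3 ≤ n) (X : SimpleGraph V)
    (hX : Q182.Cc.Median X) (hact : ∀ (g : G) (v w : V), X.Adj v w → X.Adj (g • v) (g • w))
    (hE : ∀ u v : V, X.Adj u v → VSmall (MulAction.stabilizer G (Q182.Cc.Wd X u v)))
    (hV : ∀ v : V, CtlN n P (MulAction.stabilizer G v)) : CtlN n P G := by
  intro H _ hH H₀ hfi f hf
  obtain ⟨v⟩ : Nonempty V := hX.1.nonempty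
  let : MulAction H₀ V := MulAction.compHom V f
  have hG := good_fi hH.1 (hH.h12 hn) H₀ hfi
  have hsys : Q182.Cc.Sys H₀ (Q182.Cc.HS X) := hX.sys (fun g v w h => hact (f g) v w h)
  have hY : ∀ y : Set V, (∃ u w : V, ¬ (y ∈ Q182.Cc.HS X u ↔ y ∈ Q182.Cc.HS X w)) →
      LFS (MulAction.stabilizer H₀ y) := by
    intro y hy
    have h1 : ∃ a b : V, X.Adj a b ∧ y = Q182.Cc.Wd X a b := by
      obtain ⟨u, w, huw⟩ := hy
      by_contra hcon
      apply huw
      constructor
      · rintro ⟨_, h⟩
        exact absurd h hcon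
      · rintro ⟨_, h⟩
        exact absurd h hcon
    obtain ⟨a, b, hab, rfl⟩ := h1
    refine lfs_stabN H₀ hH.1.torsionFree f hf _ _ (hE a b hab) ?_
    intro x hx
    exact hx
  obtain ⟨u, hu⟩ := sys_orbit hG hsys v hY
  refine hyp_of_orbitN hH H₀ hfi f hf u (hV u) (MulAction.stabilizer H₀ u) ?_ ?_
  · rw [MulAction.index_stabilizer]
    exact Set.ncard_ne_zero_of_mem (MulAction.mem_orbit_self u) hu
  · intro x hx
    exact hx

theorem ctlN_tree {G V : Type} [Group G] [MulAction G V] (hn : 3 ≤ n) (T : SimpleGraph V)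
    (hT : T.IsTree) (hact : ∀ (g : G) (v w : V), T.Adj v w → T.Adj (g • v) (g • w))
    (hinv : ∀ (g : G) (u v : V), T.Adj u v → g • u = v → g • v ≠ u)
    (hE : ∀ u v : V, T.Adj u v →
      VSmall (MulAction.stabilizer G u ⊓ MulAction.stabilizer G v : Subgroup G))
    (hV : ∀ v : V, CtlN n P (MulAction.stabilizer G v)) : CtlN n P G := by
  intro H _ hH H₀ hfi f hf
  let : MulAction H₀ V := MulAction.compHom V f
  have hG := good_fi hH.1 (hH.h12 hn) H₀ hfi
  rcases tree_fixed hG T hT (fun g v w h => hact (f g) v w h) (by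
    intro u v huv
    refine lfs_stabN H₀ hH.1.torsionFree f hf _ _ (hE u v huv) ?_
    intro x hx
    exact hx) with ⟨v, hv⟩ | ⟨u, v, g, huv, h1, h2⟩
  · refine hyp_of_orbitN hH H₀ hfi f hf v (hV v) ⊤ ?_ ?_
    · rw [Subgroup.index_top]
      exact one_ne_zero
    · intro x _
      exact hv x
  · exact absurd h2 (hinv (f g) u v huv h1)

theorem CtlN.hom {G Q : Type} [Group G] [Group Q] (h : CtlN n P Q) (φ : G →* Q)
    (hφ : ∀ g : G, φ g = 1 → IsOfFinOrder g) : CtlN n P G := by
  intro H _ hH H₀ hfi f hf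
  refine h H hH H₀ hfi (φ.comp f) ?_
  rw [injective_iff_map_eq_one]
  intro x hx
  have h1 : IsOfFinOrder (f x) := hφ _ hx
  have h2 : IsOfFinOrder x := isOfFinOrder_of_injective f hf h1
  have h3 := hH.1.torsionFree _ (H₀.subtype.isOfFinOrder h2)
  exact H₀.subtype_injective (by rw [h3, map_one])

theorem CtlN.fi {G : Type} [Group G] (G₀ : Subgroup G) (hG₀ : G₀.index ≠ 0)
    (h : CtlN n P G₀) : CtlN n P G := by
  intro H _ hH H₀ hfi f hf
  have h1 : (G₀.comap f).index ≠ 0 := by
    rw [Subgroup.index_comap]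
    intro h0
    exact hG₀ (Subgroup.index_eq_zero_of_relIndex_eq_zero h0)
  let C := G₀.comap f
  let φ : C →* G₀ := (f.comp C.subtype).codRestrict _ (fun x => x.2)
  have hφ : Function.Injective φ := by
    intro a b hab
    have h1 : f (C.subtype a) = f (C.subtype b) := congrArg Subtype.val hab
    exact C.subtype_injective (hf h1)
  let e : C ≃* (C.map H₀.subtype) := C.equivMapOfInjective H₀.subtype H₀.subtype_injective
  refine h H hH (C.map H₀.subtype) ?_ (φ.comp e.symm.toMonoidHom)
    (hφ.comp e.symm.injective)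
  rw [Subgroup.index_map_subtype]
  exact mul_ne_zero h1 hfi

theorem CtlN.local {G : Type} [Group G] (h : ∀ K : Subgroup G, K.FG → CtlN n P K) :
    CtlN n P G := by
  intro H _ hH H₀ hfi f hf
  have h2 : Group.FG H := hH.1.fg
  have hfi' : H₀.FiniteIndex := ⟨hfi⟩
  have h3 : Group.FG H₀ := Subgroup.fg_of_index_ne_zero _
  have h4 : Group.FG f.range := Group.fg_of_surjective (f := f.rangeRestrict)
    f.rangeRestrict_surjective
  refine h f.range ((Group.fg_iff_subgroup_fg _).mp h4) H hH H₀ hfi f.rangeRestrict ?_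
  intro a b hab
  exact hf (congrArg Subtype.val hab)

/-- `PD(n)` groups are not virtually free. -/
theorem IsPDn.not_free (hn : 3 ≤ n) (hH : IsPDn n H) (F : Subgroup H) (hF : F.index ≠ 0) :
    ¬ IsFreeGroup F := by
  intro hfree
  have h1 : Group.FG H := hH.1.fg
  have hF' : F.FiniteIndex := ⟨hF⟩
  have h2 : Group.FG F := Subgroup.fg_of_index_ne_zero _
  have hv : Van F F := by
    intro f hf
    refine pri_of_fg f hf fun g x _ => ?_
    exact van_fi F hF _ (van_lfs hH.1 (hH.h12 hn) _ ((lfs_of_free _).map F.subtype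
      F.subtype_injective))
  have h3 : Subsingleton F := free_van F hv
  have h4 : F = ⊥ := Subgroup.eq_bot_of_subsingleton F
  rw [h4, Subgroup.index_bot] at hF
  have h5 : Finite H := Nat.finite_of_card_ne_zero hF
  have h6 := hH.nontrivial hn
  obtain ⟨g, hg⟩ := exists_ne (1 : H)
  exact hg (hH.1.torsionFree g (isOfFinOrder_of_finite g))

theorem CtlN.of_small {G : Type} [Group G] (hn : 3 ≤ n) (hG : VSmall G) : CtlN n P G := by
  classical
  intro H _ hH H₀ hfi f hf
  exfalso
  have h2 : Group.FG H := hH.1.fg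
  have hfi' : H₀.FiniteIndex := ⟨hfi⟩
  have h3 : Group.FG H₀ := Subgroup.fg_of_index_ne_zero _
  have h5 : ∀ g : H₀, IsOfFinOrder g → g = 1 := by
    intro g hg
    have h1 := hH.1.torsionFree _ (H₀.subtype.isOfFinOrder hg)
    exact H₀.subtype_injective (by rw [h1, map_one])
  obtain ⟨S, hS⟩ := h3.out
  obtain ⟨F, -, h6, h7⟩ := vsmall_use hG H₀ f hf h5 S
  rw [hS, Subgroup.relIndex_top_right] at h6
  refine hH.not_free hn (F.map H₀.subtype) ?_ ?_
  · rw [Subgroup.index_map_subtype]
    exact mul_ne_zero h6 hfi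
  · exact IsFreeGroup.ofMulEquiv (F.equivMapOfInjective H₀.subtype H₀.subtype_injective)

end Pool.Agent.H47.WT
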