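import Mathlib
import Pool.Agent.H47.WT.Main

set_option autoImplicit false

/-!
# Groups of type `FP_2`
-/

namespace Pool.Agent.H47.WT

/-- `G` is of type `FP_2` over `ℤ`: there is an exact sequence `P2 → P1 → P0 → ℤ → 0` of `ℤG`-modules,
where `P0` and `P1` are finitely generated and projective and `P2` is finitely generated. -/
def IsFP2 (G : Type) [Group G] : Prop :=
  ∃ (P0 P1 P2 : ModuleCat.{0} (MonoidAlgebra ℤ G))
      (d0 : P1 →ₗ[MonoidAlgebra ℤ G] P0) (d1 : P2 →ₗ[MonoidAlgebra ℤ G] P1) (ε : P0 →+ ℤ),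
      Module.Projective (MonoidAlgebra ℤ G) P0 ∧ Module.Projective (MonoidAlgebra ℤ G) P1 ∧
      Module.Finite (MonoidAlgebra ℤ G) P0 ∧ Module.Finite (MonoidAlgebra ℤ G) P1 ∧
      Module.Finite (MonoidAlgebra ℤ G) P2 ∧
      (∀ (g : G) (x : P0), ε (MonoidAlgebra.of ℤ G g • x) = ε x) ∧
      Function.Surjective ε ∧
      (∀ x : P0, ε x = 0 ↔ x ∈ LinearMap.range d0) ∧
      LinearMap.ker d0 = LinearMap.range d1

variable {H : Type} [Group H]

theorem van_lfs2 (hP : IsFP2 H) (h12 : H12 H) (C : Subgroup H) (hC : LFS C) :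
    Van H (H ⧸ C) := by
  classical
  obtain ⟨P0, P1, P2, d0, d1, ε, hp0, hp1, hf0, hf1, hf2, heq, hsurj, hex0, hex⟩ := hP
  refine Pool.Agent.H50.WT.van_local (P0 := P0) (P1 := P1) (P2 := P2) d0 d1 ε heq hsurj
    hex0 hex C ?_
  intro S hS
  obtain ⟨K, hKS, hKi, hfree⟩ := hC S hS
  refine ⟨Subgroup.closure (S : Set H), (Subgroup.closure_le C).mpr hS,
    Subgroup.subset_closure, ?_⟩
  apply van_transfer K _ hKS hKi
  let e : K ≃* FreeGroup (IsFreeGroup.Generators K) := IsFreeGroup.toFreeGroup K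
  have hfgK : Group.FG K := by
    have h1 : Group.FG (Subgroup.closure (S : Set H)) := by
      rw [Group.fg_iff_subgroup_fg]
      exact ⟨S, rfl⟩
    have h2 : Group.FG (K.subgroupOf (Subgroup.closure (S : Set H))) := by
      have h3 : (K.subgroupOf (Subgroup.closure (S : Set H))).FiniteIndex := ⟨hKi⟩
      exact Subgroup.fg_of_index_ne_zero _
    exact Group.fg_of_surjective (f := (Subgroup.subgroupOfEquivOfLe hKS).toMonoidHom)
      (Subgroup.subgroupOfEquivOfLe hKS).surjective
  have hfg : Group.FG (FreeGroup (IsFreeGroup.Generators K)) :=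
    Group.fg_of_surjective (f := e.toMonoidHom) e.surjective
  have hfinite : Finite (IsFreeGroup.Generators K) := finite_of_fg_freeGroup _ hfg
  let φ : FreeGroup (IsFreeGroup.Generators K) →* H := K.subtype.comp e.symm.toMonoidHom
  have hφ : Function.Injective φ := by
    intro a b hab
    exact e.symm.injective (K.subtype_injective hab)
  have hr : φ.range = K := by
    ext x
    constructor
    · rintro ⟨a, rfl⟩
      exact (e.symm a).2
    · intro hx
      exact ⟨e ⟨x, hx⟩, by simp [φ]⟩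
  have h3 := van_free (van_of_subsingleton h12.1) (van2_of_subsingleton h12.2) φ hφ
  rw [hr] at h3
  exact h3

theorem IsFP2.fg (hP : IsFP2 H) : Group.FG H := by
  obtain ⟨P0, P1, P2, d0, d1, ε, hp0, hp1, hf0, hf1, hf2, heq, hsurj, hex0, hex⟩ := hP
  exact Pool.Agent.H986PD.fg_of_FP P0 P1 d0 ε hsurj heq hex0

theorem good2 (hP : IsFP2 H) (h12 : H12 H) : Good H := by
  have := hP.fg
  exact good_of_van fun C hC => van_lfs2 hP h12 C hC

end Pool.Agent.H47.WT
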